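import Pool.Agent.helper91.SI.Spec

/-! Row CNV of project SI. -/

set_option autoImplicit false

namespace Pool.Agent.helper91.SI

open Finset
open Pool.Agent.helper20.IG (IsIndepDom IsISet iGraph)

private lemma CNV_succ {N : ℕ} (z : Fin (N + 2)) :
    (z + 1).val = if z.val = N + 1 then 0 else z.val + 1 := by
  rw [Fin.val_add_one]
  by_cases h : z = Fin.last _
  · subst h; simp
  · rw [if_neg h, if_neg]
    intro h'; exact h (Fin.ext h')

private lemma CNV_pred {N : ℕ} (z : Fin (N + 2)) :
    (z - 1).val = if z.val = 0 then N + 1 else z.val - 1 := by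
  have h := CNV_succ (z - 1)
  rw [sub_add_cancel] at h
  have h2 := (z - 1).isLt
  split_ifs at h ⊢ <;> omega

private lemma CNV_val {N : ℕ} (t : ℕ) (ht : t < N + 2) : (t • (1 : Fin (N + 2))).val = t := by
  induction t with
  | zero => simp
  | succ t ih =>
    rw [succ_nsmul, CNV_succ, ih (by omega), if_neg (by omega)]

/-- the sets -/
private def SS {N : ℕ} (x : Fin (N + 2)) : Finset (Fin (N + 2)) :=
  univ.filter fun y => (y - x).val % 3 = 1

private lemma CNV_mem {N : ℕ} (x y : Fin (N + 2)) : y ∈ SS x ↔ (y - x).val % 3 = 1 := by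
  simp [SS]

private lemma CNV_indep (m : ℕ) (hm : 1 ≤ m) (x : Fin (3 * m + 2)) :
    IsIndepDom (SimpleGraph.cycleGraph (3 * m + 2)) (SS x) := by
  have key : ∀ v : Fin (3 * m + 2), v ∈ SS x → v + 1 ∈ SS x → False := by
    intro v h1 h2
    rw [CNV_mem] at h1 h2
    rw [show v + 1 - x = (v - x) + 1 by abel, CNV_succ] at h2
    split_ifs at h2 <;> omega
  constructor
  · intro u hu v hv h
    rw [SimpleGraph.cycleGraph_adj] at h
    rcases h with h | h
    · have : u = v + 1 := by rw [← h]; abel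
      subst this; exact key v hv hu
    · have : v = u + 1 := by rw [← h]; abel
      subst this; exact key u hu hv
  · intro v hv
    rw [CNV_mem] at hv
    have hlt := (v - x).isLt
    by_cases h2 : (v - x).val % 3 = 2
    · refine ⟨v - 1, ?_, ?_⟩
      · rw [CNV_mem, show v - 1 - x = (v - x) - 1 by abel, CNV_pred]
        split_ifs <;> omega
      · rw [SimpleGraph.cycleGraph_adj]
        right; abel
    · refine ⟨v + 1, ?_, ?_⟩
      · rw [CNV_mem, show v + 1 - x = (v - x) + 1 by abel, CNV_succ]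
        split_ifs <;> omega
      · rw [SimpleGraph.cycleGraph_adj]
        left; abel

private lemma CNV_card (m : ℕ) (x : Fin (3 * m + 2)) : (SS x).card ≤ m + 1 := by
  rw [← Finset.card_range (m + 1)]
  refine Finset.card_le_card_of_injOn (fun y => (y - x).val / 3) ?_ ?_
  · intro y hy
    have := (y - x).isLt
    simp only [Finset.coe_range, Set.mem_Iio]
    omega
  · intro y hy z hz h
    rw [Finset.mem_coe, CNV_mem] at hy hz
    simp only at h
    have : (y - x).val = (z - x).val := by omega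
    have h2 : y - x = z - x := Fin.ext this
    exact sub_left_injective h2

/-- the number of members of the closed neighbourhood in `S` -/
private def DD {N : ℕ} (S : Finset (Fin (N + 2))) (y : Fin (N + 2)) : ℕ :=
  (if y ∈ S then 1 else 0) + (if y + 1 ∈ S then 1 else 0) + (if y - 1 ∈ S then 1 else 0)

private lemma CNV_sum {N : ℕ} (S : Finset (Fin (N + 2))) : ∑ y, DD S y = 3 * S.card := by
  unfold DD
  rw [Finset.sum_add_distrib, Finset.sum_add_distrib]
  have h0 : ∑ y : Fin (N + 2), (if y ∈ S then 1 else 0) = S.card := by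
    rw [Finset.sum_boole]; simp
  have h1 : ∑ y : Fin (N + 2), (if y + 1 ∈ S then 1 else 0) = S.card := by
    rw [← h0]
    exact Equiv.sum_comp (Equiv.addRight (1 : Fin (N + 2))) (fun y => if y ∈ S then 1 else 0)
  have h2 : ∑ y : Fin (N + 2), (if y - 1 ∈ S then 1 else 0) = S.card := by
    rw [← h0]
    exact Equiv.sum_comp (Equiv.subRight (1 : Fin (N + 2))) (fun y => if y ∈ S then 1 else 0)
  rw [h0, h1, h2]; ring

private lemma CNV_pos {N : ℕ} (S : Finset (Fin (N + 2)))
    (hS : IsIndepDom (SimpleGraph.cycleGraph (N + 2)) S) (y : Fin (N + 2)) : 1 ≤ DD S y := by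
  unfold DD
  by_cases h : y ∈ S
  · rw [if_pos h]; omega
  · obtain ⟨u, hu, hadj⟩ := hS.2 y h
    rw [SimpleGraph.cycleGraph_adj] at hadj
    rcases hadj with h1 | h1
    · have : u = y + 1 := by rw [← h1]; abel
      rw [this] at hu
      rw [if_pos hu]; omega
    · have : u = y - 1 := by rw [← h1]; abel
      rw [this] at hu
      rw [if_pos hu]; omega

private lemma CNV_iset (m : ℕ) (hm : 1 ≤ m) (x : Fin (3 * m + 2)) :
    IsISet (SimpleGraph.cycleGraph (3 * m + 2)) (SS x) := by
  refine ⟨CNV_indep m hm x, fun T hT => ?_⟩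
  have h1 := CNV_sum T
  have h2 : 3 * m + 2 ≤ ∑ y, DD T y := by
    calc 3 * m + 2 = ∑ _y : Fin (3 * m + 2), 1 := by simp
      _ ≤ _ := Finset.sum_le_sum fun y _ => CNV_pos T hT y
  have h3 := CNV_card m x
  omega

private lemma CNV_struct (m : ℕ) (hm : 1 ≤ m) (S : Finset (Fin (3 * m + 2)))
    (hS : IsISet (SimpleGraph.cycleGraph (3 * m + 2)) S) : ∃ x, S = SS x := by
  have hcard : S.card ≤ m + 1 := (hS.2 _ (CNV_indep m hm 0)).trans (CNV_card m 0)
  have hpos := CNV_pos S hS.1
  have hsum := CNV_sum S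
  have hadj : ∀ v : Fin (3 * m + 2), v ∈ S → v + 1 ∈ S → False := by
    intro v h1 h2
    refine hS.1.1 v h1 (v + 1) h2 ?_
    rw [SimpleGraph.cycleGraph_adj]; right; abel
  have hs : ∑ y, (DD S y - 1) + (3 * m + 2) = 3 * S.card := by
    have e1 : ∑ _y : Fin (3 * m + 2), 1 = 3 * m + 2 := by simp
    have e2 : ∑ y, (DD S y - 1) + ∑ _y : Fin (3 * m + 2), 1 = ∑ y, DD S y := by
      rw [← Finset.sum_add_distrib]
      refine Finset.sum_congr rfl fun y _ => ?_
      have := hpos y
      omega
    rw [e1, hsum] at e2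
    exact e2
  have hs1 : ∑ y, (DD S y - 1) = 1 := by omega
  obtain ⟨x, hx⟩ : ∃ x, DD S x - 1 ≠ 0 := by
    by_contra hc
    push Not at hc
    rw [Finset.sum_eq_zero (fun y _ => hc y)] at hs1
    omega
  have hx1 : DD S x - 1 ≤ 1 := by
    calc DD S x - 1 ≤ ∑ y, (DD S y - 1) :=
          Finset.single_le_sum (f := fun y => DD S y - 1) (fun _ _ => Nat.zero_le _) (Finset.mem_univ x)
      _ = 1 := hs1
  have hother : ∀ y, y ≠ x → DD S y = 1 := by
    intro y hy
    have h1 : ∑ z ∈ {x, y}, (DD S z - 1) ≤ ∑ z, (DD S z - 1) :=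
      Finset.sum_le_sum_of_subset (Finset.subset_univ _)
    rw [Finset.sum_pair hy.symm, hs1] at h1
    have := hpos y
    omega
  have hxS : x ∉ S ∧ x + 1 ∈ S := by
    have h2 : DD S x = 2 := by omega
    unfold DD at h2
    have a1 := hadj x
    have a2 := hadj (x - 1)
    rw [sub_add_cancel] at a2
    by_cases b0 : x ∈ S
    · rw [if_pos b0, if_neg (fun h => a1 b0 h), if_neg (fun h => a2 h b0)] at h2
      omega
    · refine ⟨b0, ?_⟩
      by_contra b1
      rw [if_neg b0, if_neg b1] at h2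
      split_ifs at h2 <;> omega
  have hP : ∀ t : ℕ, t + 1 < 3 * m + 2 →
      (x + t • (1 : Fin (3 * m + 2)) ∈ S ↔ t % 3 = 1) ∧
      (x + (t + 1) • (1 : Fin (3 * m + 2)) ∈ S ↔ (t + 1) % 3 = 1) := by
    intro t
    induction t with
    | zero =>
      intro _
      simp [hxS.1, hxS.2]
    | succ t ih =>
      intro ht
      obtain ⟨p0, p1⟩ := ih (by omega)
      refine ⟨p1, ?_⟩
      have hne : x + (t + 1) • (1 : Fin (3 * m + 2)) ≠ x := by
        intro h
        have h1 : (t + 1) • (1 : Fin (3 * m + 2)) = 0 := by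
          exact add_eq_left.mp h
        have h2 := CNV_val (N := 3 * m) (t + 1) (by omega)
        rw [h1] at h2
        simp at h2
      have hd := hother _ hne
      unfold DD at hd
      rw [show x + (t + 1) • (1 : Fin (3 * m + 2)) + 1 = x + (t + 1 + 1) • (1 : Fin (3 * m + 2)) by
          rw [succ_nsmul _ (t + 1), add_assoc],
        show x + (t + 1) • (1 : Fin (3 * m + 2)) - 1 = x + t • (1 : Fin (3 * m + 2)) by
          rw [succ_nsmul _ t, ← add_assoc, add_sub_cancel_right]] at hd
      by_cases c0 : x + t • (1 : Fin (3 * m + 2)) ∈ S <;>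
        by_cases c1 : x + (t + 1) • (1 : Fin (3 * m + 2)) ∈ S <;>
        by_cases c2 : x + (t + 1 + 1) • (1 : Fin (3 * m + 2)) ∈ S <;>
        simp only [c0, c1, c2, if_true, if_false, true_iff, false_iff] at hd p0 p1 ⊢ <;> omega
  refine ⟨x, ?_⟩
  ext y
  rw [CNV_mem]
  have hlt := (y - x).isLt
  have hy : y = x + (y - x).val • (1 : Fin (3 * m + 2)) := by
    have : (y - x).val • (1 : Fin (3 * m + 2)) = y - x := Fin.ext (CNV_val _ hlt)
    rw [this]; abel
  by_cases h0 : (y - x).val = 0
  · have h1 := (hP 0 (by omega)).1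
    rw [h0] at hy ⊢
    rw [hy]
    exact h1
  · have h1 := (hP ((y - x).val - 1) (by omega)).2
    rw [Nat.sub_add_cancel (by omega)] at h1
    conv_lhs => rw [hy]
    exact h1

private lemma CNV_shift (m : ℕ) (hm : 1 ≤ m) (x : Fin (3 * m + 2)) :
    SS (x + 1 + 1 + 1) = insert (x + 1 + 1) ((SS x).erase (x + 1)) := by
  have v1 : (1 : Fin (3 * m + 2)).val = 1 := rfl
  have v2 : (1 + 1 : Fin (3 * m + 2)).val = 2 := by
    rw [CNV_succ, v1, if_neg (by omega)]
  ext y
  have e1 : y = x + 1 + 1 ↔ (y - x).val = 2 := by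
    constructor
    · intro h
      rw [h, show x + 1 + 1 - x = 1 + 1 by abel, v2]
    · intro h
      have : y - x = 1 + 1 := Fin.ext (by rw [h, v2])
      rw [sub_eq_iff_eq_add] at this
      rw [this]; abel
  have e2 : y = x + 1 ↔ (y - x).val = 1 := by
    constructor
    · intro h
      rw [h, show x + 1 - x = 1 by abel, v1]
    · intro h
      have : y - x = 1 := Fin.ext (by rw [h, v1])
      rw [sub_eq_iff_eq_add] at this
      rw [this]; abel
  rw [Finset.mem_insert, Finset.mem_erase, CNV_mem, CNV_mem, e1, Ne, e2,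
    show y - (x + 1 + 1 + 1) = y - x - 1 - 1 - 1 by abel, CNV_pred, CNV_pred, CNV_pred]
  have := (y - x).isLt
  clear e1 e2
  generalize (y - x).val = t at *
  split_ifs <;> first | omega | contradiction

private lemma CNV_inj (m : ℕ) (hm : 1 ≤ m) (x x' : Fin (3 * m + 2)) (h : SS x = SS x') : x = x' := by
  have v0 : (0 : Fin (3 * m + 2)).val = 0 := rfl
  have h1 : x - 1 ∈ SS x := by
    rw [CNV_mem, show x - 1 - x = 0 - 1 by abel, CNV_pred, v0, if_pos rfl]; omega
  have h2 : x + 1 ∈ SS x := by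
    rw [CNV_mem, show x + 1 - x = 0 + 1 by abel, CNV_succ, v0, if_neg (by omega)]
  rw [h, CNV_mem, show x - 1 - x' = (x - x') - 1 by abel, CNV_pred] at h1
  rw [h, CNV_mem, show x + 1 - x' = (x - x') + 1 by abel, CNV_succ] at h2
  have h3 : (x - x').val = 0 := by
    split_ifs at h1 h2 <;> omega
  have h4 : x - x' = 0 := Fin.ext (by rw [h3, v0])
  exact sub_eq_zero.mp h4

private lemma CNV_fwd (m : ℕ) (hm : 1 ≤ m) (x u : Fin (3 * m + 2)) (Y : Finset (Fin (3 * m + 2)))
    (hu : u ∈ SS x) (hY : IsIndepDom (SimpleGraph.cycleGraph (3 * m + 2)) Y)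
    (e : Y = insert (u + 1) ((SS x).erase u)) : Y = SS (x + 1 + 1 + 1) := by
  have v0 : (0 : Fin (3 * m + 2)).val = 0 := rfl
  have v1 : (0 + 1 : Fin (3 * m + 2)).val = 1 := by rw [CNV_succ, v0, if_neg (by omega)]
  have v2 : (0 + 1 + 1 : Fin (3 * m + 2)).val = 2 := by rw [CNV_succ, v1, if_neg (by omega)]
  have v3 : (0 + 1 + 1 + 1 : Fin (3 * m + 2)).val = 3 := by rw [CNV_succ, v2, if_neg (by omega)]
  have n1 : ∀ z : Fin (3 * m + 2), z ≠ z + 1 := by
    intro z hz
    have : (0 + 1 : Fin (3 * m + 2)) = 0 := by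
      have := congrArg (fun w => w - z) hz
      simp only [sub_self] at this
      conv_rhs => rw [this]
      abel
    rw [this, v0] at v1; omega
  have n2 : ∀ z : Fin (3 * m + 2), z ≠ z + 1 + 1 := by
    intro z hz
    have : (0 + 1 + 1 : Fin (3 * m + 2)) = 0 := by
      have := congrArg (fun w => w - z) hz
      simp only [sub_self] at this
      conv_rhs => rw [this]
      abel
    rw [this, v0] at v2; omega
  have n3 : ∀ z : Fin (3 * m + 2), z ≠ z + 1 + 1 + 1 := by
    intro z hz
    have : (0 + 1 + 1 + 1 : Fin (3 * m + 2)) = 0 := by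
      have := congrArg (fun w => w - z) hz
      simp only [sub_self] at this
      conv_rhs => rw [this]
      abel
    rw [this, v0] at v3; omega
  have hux : u ∉ Y := by
    rw [e, Finset.mem_insert, Finset.mem_erase]
    push Not
    exact ⟨n1 u, fun h => absurd rfl h⟩
  have h1 : u - 1 ∉ Y := by
    rw [e, Finset.mem_insert, Finset.mem_erase]
    rintro (h | ⟨_, h⟩)
    · refine n2 (u - 1) ?_
      rw [sub_add_cancel]; exact h
    · refine (CNV_indep m hm x).1 _ h _ hu ?_
      rw [SimpleGraph.cycleGraph_adj]; right; abel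
  obtain ⟨s, hs, hadj⟩ := hY.2 _ h1
  rw [SimpleGraph.cycleGraph_adj] at hadj
  have hs2 : s = u - 1 - 1 := by
    rcases hadj with h | h
    · exfalso
      have : s = u := by
        rw [sub_eq_iff_eq_add] at h
        rw [h]; abel
      exact hux (this ▸ hs)
    · rw [sub_eq_iff_eq_add] at h
      rw [h]; abel
  have hs3 : s ∈ SS x := by
    rw [e, Finset.mem_insert, Finset.mem_erase] at hs
    rcases hs with h | h
    · exfalso
      refine n3 s ?_
      rw [h]
      have : u = s + 1 + 1 := by rw [hs2]; abel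
      rw [← h]
      conv_lhs => rw [h, this]
    · exact h.2
  have hz : (u - x).val = 1 := by
    rw [CNV_mem] at hu hs3
    rw [hs2, show u - 1 - 1 - x = (u - x) - 1 - 1 by abel, CNV_pred, CNV_pred] at hs3
    split_ifs at hs3 <;> omega
  have hux1 : u = x + 1 := by
    have : u - x = 0 + 1 := Fin.ext (by rw [hz, v1])
    rw [sub_eq_iff_eq_add] at this
    rw [this]; abel
  rw [e, hux1, CNV_shift m hm x]

private lemma CNV_adj (m : ℕ) (hm : 1 ≤ m) (x x' : Fin (3 * m + 2)) :
    (iGraph (SimpleGraph.cycleGraph (3 * m + 2))).Adj ⟨SS x, CNV_iset m hm x⟩ ⟨SS x', CNV_iset m hm x'⟩ ↔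
      (x' = x + 1 + 1 + 1 ∨ x = x' + 1 + 1 + 1) := by
  have v0 : (0 : Fin (3 * m + 2)).val = 0 := rfl
  have v1 : (0 + 1 : Fin (3 * m + 2)).val = 1 := by rw [CNV_succ, v0, if_neg (by omega)]
  have v2 : (0 + 1 + 1 : Fin (3 * m + 2)).val = 2 := by rw [CNV_succ, v1, if_neg (by omega)]
  have v3 : (0 + 1 + 1 + 1 : Fin (3 * m + 2)).val = 3 := by rw [CNV_succ, v2, if_neg (by omega)]
  have back : ∀ x x' : Fin (3 * m + 2), x' = x + 1 + 1 + 1 →
      (iGraph (SimpleGraph.cycleGraph (3 * m + 2))).Adj ⟨SS x, CNV_iset m hm x⟩ ⟨SS x', CNV_iset m hm x'⟩ := by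
    intro x x' h
    subst h
    refine ⟨?_, x + 1, ?_, x + 1 + 1, ?_, ?_, ?_⟩
    · intro h
      have h1 := CNV_inj m hm _ _ (congrArg Subtype.val h)
      have : (0 + 1 + 1 + 1 : Fin (3 * m + 2)) = 0 := by
        have := congrArg (fun w => w - x) h1
        simp only [sub_self] at this
        conv_rhs => rw [this]
        abel
      rw [this, v0] at v3; omega
    · change x + 1 ∈ SS x
      rw [CNV_mem, show x + 1 - x = 0 + 1 by abel, v1]
    · change x + 1 + 1 ∈ SS (x + 1 + 1 + 1)
      rw [CNV_shift m hm x]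
      exact Finset.mem_insert_self _ _
    · rw [SimpleGraph.cycleGraph_adj]; right; abel
    · exact CNV_shift m hm x
  constructor
  · rintro ⟨hne, u, hu, v, hv, huv, hY⟩
    change u ∈ SS x at hu
    change v ∈ SS x' at hv
    change SS x' = insert v ((SS x).erase u) at hY
    have hvX : v ∉ SS x := fun h => (CNV_indep m hm x).1 u hu v h huv
    have hvu : u ≠ v := huv.ne
    have hX : SS x = insert u ((SS x').erase v) := by
      rw [hY, Finset.erase_insert, Finset.insert_erase hu]
      simp [hvX]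
    rw [SimpleGraph.cycleGraph_adj] at huv
    rcases huv with h | h
    · right
      have : u = v + 1 := by rw [← h]; abel
      rw [this] at hX
      exact CNV_inj m hm _ _ (CNV_fwd m hm x' v (SS x) hv (CNV_indep m hm x) hX)
    · left
      have : v = u + 1 := by rw [← h]; abel
      rw [this] at hY
      exact CNV_inj m hm _ _ (CNV_fwd m hm x u (SS x') hu (CNV_indep m hm x') hY)
  · rintro (h | h)
    · exact back x x' h
    · exact (back x' x h).symm

private lemma CNV_tri (m : ℕ) (i : Fin (3 * m + 2)) : (m + 1) • (i + i + i) = i := by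
  have h := card_nsmul_eq_zero (x := i)
  rw [Fintype.card_fin] at h
  rw [show i + i + i = 3 • i by rw [succ_nsmul, two_nsmul], ← mul_nsmul,
    show 3 * (m + 1) = (3 * m + 2) + 1 by ring, succ_nsmul, h, zero_add]

theorem CNV : CNV_stmt := by
  intro n hn h3
  obtain ⟨m, rfl⟩ : ∃ m, n = 3 * m + 2 := ⟨n / 3, by omega⟩
  have hm : 1 ≤ m := by omega
  have hinj : ∀ i j : Fin (3 * m + 2), i + i + i = j + j + j → i = j := by
    intro i j h
    rw [← CNV_tri m i, ← CNV_tri m j, h]
  let f : Fin (3 * m + 2) → {S : Finset (Fin (3 * m + 2)) // IsISet (SimpleGraph.cycleGraph (3 * m + 2)) S} :=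
    fun i => ⟨SS (i + i + i), CNV_iset m hm _⟩
  have hf : Function.Bijective f := by
    constructor
    · intro i j h
      exact hinj i j (CNV_inj m hm _ _ (congrArg Subtype.val h))
    · rintro ⟨S, hS⟩
      obtain ⟨x, rfl⟩ := CNV_struct m hm S hS
      refine ⟨(m + 1) • x, Subtype.ext ?_⟩
      change SS ((m + 1) • x + (m + 1) • x + (m + 1) • x) = SS x
      rw [← nsmul_add, ← nsmul_add, CNV_tri]
  refine ⟨(⟨Equiv.ofBijective f hf, ?_⟩ : SimpleGraph.cycleGraph (3 * m + 2) ≃g iGraph (SimpleGraph.cycleGraph (3 * m + 2))).symm⟩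
  intro i j
  rw [Equiv.ofBijective_apply, Equiv.ofBijective_apply]
  change (iGraph (SimpleGraph.cycleGraph (3 * m + 2))).Adj ⟨SS (i + i + i), CNV_iset m hm _⟩ ⟨SS (j + j + j), CNV_iset m hm _⟩ ↔ _
  rw [CNV_adj m hm, SimpleGraph.cycleGraph_adj]
  constructor
  · rintro (h | h)
    · right
      have : j = i + 1 := hinj _ _ (by rw [h]; abel)
      rw [this]; abel
    · left
      have : i = j + 1 := hinj _ _ (by rw [h]; abel)
      rw [this]; abel
  · rintro (h | h)
    · right
      have : i = j + 1 := by rw [← h]; abel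
      rw [this]; abel
    · left
      have : j = i + 1 := by rw [← h]; abel
      rw [this]; abel

end Pool.Agent.helper91.SI
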