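import Pool.Agent.helper91.SI.Spec4

set_option autoImplicit false

namespace Pool.Agent.helper91.SI

open Pool.Agent.helper20.IG (IsIndepDom IsISet iGraph)

/-- six vertices as a function on `ZMod 6` -/
def N6G_pt {V : Type} (a b c d e f : V) : ZMod 6 → V :=
  fun t => (![a, b, c, d, e, f] : Fin 6 → V) t

lemma N6G_cyc {V : Type} (G : SimpleGraph V) (a b c d e f : V)
    (hn : [a, b, c, d, e, f].Nodup) (h0 : G.Adj a b) (h1 : G.Adj b c) (h2 : G.Adj c d)
    (h3 : G.Adj d e) (h4 : G.Adj e f) (h5 : G.Adj f a) : Cyc6 G (N6G_pt a b c d e f) := by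
  refine ⟨?_, ?_⟩
  · have h : Function.Injective ([a, b, c, d, e, f] : List V).get := List.nodup_iff_injective_get.1 hn
    intro i j hij
    have e1 : ∀ t : Fin 6, (![a, b, c, d, e, f] : Fin 6 → V) t = ([a, b, c, d, e, f] : List V).get t := by
      intro t
      fin_cases t <;> rfl
    have : (![a, b, c, d, e, f] : Fin 6 → V) i = (![a, b, c, d, e, f] : Fin 6 → V) j := hij
    rw [e1, e1] at this
    exact h this
  · intro k
    have : ∀ t : Fin 6, G.Adj ((![a, b, c, d, e, f] : Fin 6 → V) t)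
        ((![a, b, c, d, e, f] : Fin 6 → V) (t + 1)) := by
      intro t
      fin_cases t
      · exact h0
      · exact h1
      · exact h2
      · exact h3
      · exact h4
      · exact h5
    exact this k

lemma N6G_cycMap {V W : Type} (G : SimpleGraph V) (H : SimpleGraph W) (φ : G ≃g H) (x : ZMod 6 → V)
    (hx : Cyc6 G x) : Cyc6 H (fun t => φ (x t)) :=
  ⟨fun i j hij => hx.1 (φ.injective hij), fun k => φ.map_adj_iff.2 (hx.2 k)⟩

lemma N6G_c4 {V W : Type} (G : SimpleGraph V) (H : SimpleGraph W) (φ : G ≃g H) (h : NoC4 H) :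
    NoC4 G := by
  intro a b c d h1 h2 h3 h4 hac hbd
  exact h (φ a) (φ b) (φ c) (φ d) (φ.map_adj_iff.2 h1) (φ.map_adj_iff.2 h2) (φ.map_adj_iff.2 h3)
    (φ.map_adj_iff.2 h4) (fun e => hac (φ.injective e)) (fun e => hbd (φ.injective e))

lemma N6G_th {V W : Type} (G : SimpleGraph V) (H : SimpleGraph W) (φ : G ≃g H) (h : Th G) : Th H := by
  obtain ⟨x, y, a, a', b, b', c, c', n1, n2, hbc, h1, h2, h3, h4, h5, h6, h7, h8, h9⟩ := h
  refine ⟨φ x, φ y, φ a, φ a', φ b, φ b', φ c, φ c', ?_, ?_, fun e => hbc (φ.injective e),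
    φ.map_adj_iff.2 h1, φ.map_adj_iff.2 h2, φ.map_adj_iff.2 h3, φ.map_adj_iff.2 h4,
    φ.map_adj_iff.2 h5, φ.map_adj_iff.2 h6, φ.map_adj_iff.2 h7, φ.map_adj_iff.2 h8,
    φ.map_adj_iff.2 h9⟩
  · exact n1.map (f := φ) φ.injective
  · exact n2.map (f := φ) φ.injective

theorem N6G (hI6W : I6W_stmt) (hT6H : T6H_stmt) (hNTH : NTH_stmt) : N6G_stmt := by
  intro V _ G hT h4 hiso a b c d e f hn h0 h1 h2 h3 h5 h6
  obtain ⟨φ⟩ := hiso
  have hc := N6G_cycMap G (iGraph G) φ.symm _ (N6G_cyc G a b c d e f hn h0 h1 h2 h3 h5 h6)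
  have h4i : NoC4 (iGraph G) := N6G_c4 (iGraph G) G φ h4
  obtain ⟨s, v, hW⟩ := hI6W V G _ hc
  have hth : Th G := hT6H V G _ s v hT h4 h4i hW
  exact hNTH V G hT h4 h4i (N6G_th G (iGraph G) φ.symm hth)

end Pool.Agent.helper91.SI
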